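import Pool.Agent.Lib.MP_f35bed_an.Lower

/-!
Continuous maps from the sphere of dimension `m` to a compact manifold whose weak derivative of
order `m` has integral at most `lam`, up to an allowance for terms of lower order, belong to
finitely many homotopy classes. The case `L = 0` is the question as posed.
-/

open scoped Manifold ContDiff

namespace Pool.Agent.Lib.MP_f35bed_an.Variants.FiniteClassesAll

open Pool.Agent.Lib.MP_f35bed_an

universe u

theorem result {n ν m : ℕ} (hm : 1 ≤ m) {N : Type u} [TopologicalSpace N]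
    [ChartedSpace (EuclideanSpace ℝ (Fin n)) N] [IsManifold (𝓡 n) ∞ N] [CompactSpace N]
    (ι : N → EuclideanSpace ℝ (Fin ν)) (hι : IsInjImmersion (EuclideanSpace ℝ (Fin n)) ι)
    (lam L : ℝ) :
    FinitelyManyClasses fun f : Sph m → N => EnergyLeLower (fun x => ι (f x)) lam L := by
  obtain ⟨ε, hε, h⟩ := homotopic_of_close hι.1 hι.2.1 hι.2.2
  obtain ⟨M, hM⟩ := isCompact_univ.exists_bound_of_continuousOn hι.1.continuous.continuousOn
  obtain ⟨lam', h0⟩ := absorb (V := EuclideanSpace ℝ (Fin ν)) hm lam L M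
  obtain ⟨S, hS, h1⟩ := finite_classes hm hι.1.continuous hε (h _) lam'
  refine ⟨S, hS, fun f hf => ?_⟩
  obtain ⟨T, hT, hl⟩ := h0 _ (fun x => hM _ (Set.mem_univ _)) hf
  exact h1 f T hT hl

end Pool.Agent.Lib.MP_f35bed_an.Variants.FiniteClassesAll
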